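import Mathlib

/-!
# A satisfactory colouring that is not recovered from the tiling it induces

For `n = 6` we write a positive rational `x = 2^a 3^b 5^c`, put `s = b + c` (its level) and
`r = a - c` modulo `3`. The multiplicative colouring of the group of `6`-smooth positive rationals
gives `x` the colour `1, 2, 4` (for `r = 0, 1, 2`) if `s` is even and `3, 6, 5` if `s` is odd.
Exchanging the colours `1` and `2` on the single level `s = 2` gives another satisfactory colouring.
The colour class `X` of the colour `3` is the same for both, and the translate `3 X` contains `1` and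
`9`, which have different colours in the modified colouring.
-/

set_option autoImplicit false

namespace Pool.Agent.Results.MP_aaa104_nt.TilingNotRecovered

/-- The set of `n`-smooth positive integers. -/
def K (n : ℕ) : Set ℕ := {m | 0 < m ∧ ∀ p : ℕ, p.Prime → p ∣ m → p ≤ n}

/-- The group of the positive rationals `a / b` with `a`, `b` both `n`-smooth. -/
def Khat (n : ℕ) : Set ℚ := {q | ∃ a ∈ K n, ∃ b ∈ K n, q = (a : ℚ) / (b : ℚ)}

/-- `c` (used only on `X`) is an `n`-satisfactory colouring of `X`: the colours of the elements of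
`X` are in `{1, ..., n}`, each `i` in `{1, ..., n}` has the colour `i`, and for every `x` in `X` the
elements `x, 2x, ..., nx` have pairwise different colours. -/
def IsSatisfactory (n : ℕ) (X : Set ℚ) (c : ℚ → ℕ) : Prop :=
  (∀ x ∈ X, 1 ≤ c x ∧ c x ≤ n) ∧
  (∀ i : ℕ, 1 ≤ i → i ≤ n → c (i : ℚ) = i) ∧
  (∀ x ∈ X, ∀ i j : ℕ, 1 ≤ i → i < j → j ≤ n → c ((i : ℚ) * x) ≠ c ((j : ℚ) * x))

/-- The colour class of the colour `k` of a colouring `c` of `Khat n`. -/
def colorClass (n : ℕ) (c : ℚ → ℕ) (k : ℕ) : Set ℚ := {x | x ∈ Khat n ∧ c x = k}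

/-- The part with index `i` of the partition given by `X`: all `y` in `Khat n` with `y / i` in `X`. -/
def part (n : ℕ) (X : Set ℚ) (i : ℕ) : Set ℚ := {y | y ∈ Khat n ∧ y / (i : ℚ) ∈ X}

/-- The colouring used in the proof. -/
def col (x : ℚ) : ℕ :=
  let s : ℤ := padicValRat 3 x + padicValRat 5 x
  let r : ℤ := (padicValRat 2 x - padicValRat 5 x) % 3
  if s % 2 = 0 then
    (if s = 2 then (if r = 0 then 2 else if r = 1 then 1 else 4)
      else (if r = 0 then 1 else if r = 1 then 2 else 4))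
  else (if r = 0 then 3 else if r = 1 then 6 else 5)

theorem col_range (x : ℚ) : 1 ≤ col x ∧ col x ≤ 6 := by
  unfold col
  simp only
  split_ifs <;> omega

/-- The palette: the colour at level `s` with residue `r`. -/
def pal (s r : ℤ) : ℕ :=
  if s % 2 = 0 then
    (if s = 2 then (if r = 0 then 2 else if r = 1 then 1 else 4)
      else (if r = 0 then 1 else if r = 1 then 2 else 4))
  else (if r = 0 then 3 else if r = 1 then 6 else 5)

/-- The colouring in terms of the three exponents. -/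
def colE (a b c : ℤ) : ℕ := pal (b + c) ((a - c) % 3)

theorem col_eq (x : ℚ) : col x = colE (padicValRat 2 x) (padicValRat 3 x) (padicValRat 5 x) := rfl

/-- The exponents of the first six numbers. -/
def e2 : ℕ → ℤ
  | 2 => 1 | 4 => 2 | 6 => 1 | _ => 0
def e3 : ℕ → ℤ
  | 3 => 1 | 6 => 1 | _ => 0
def e5 : ℕ → ℤ
  | 5 => 1 | _ => 0

theorem val2 (i : ℕ) (h1 : 1 ≤ i) (h6 : i ≤ 6) : padicValRat 2 (i : ℚ) = e2 i := by
  rw [padicValRat.of_nat]
  interval_cases i
  · simp [e2]
  · simp [e2]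
  · rw [padicValNat.eq_zero_of_not_dvd (by norm_num)]; rfl
  · rw [show (4 : ℕ) = 2 ^ 2 by norm_num, padicValNat.prime_pow]; rfl
  · rw [padicValNat.eq_zero_of_not_dvd (by norm_num)]; rfl
  · rw [show (6 : ℕ) = 2 * 3 by norm_num, padicValNat.mul (by norm_num) (by norm_num),
      padicValNat.self (by norm_num), padicValNat.eq_zero_of_not_dvd (by norm_num)]; rfl

theorem val3 (i : ℕ) (h1 : 1 ≤ i) (h6 : i ≤ 6) : padicValRat 3 (i : ℚ) = e3 i := by
  rw [padicValRat.of_nat]
  interval_cases i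
  · simp [e3]
  · rw [padicValNat.eq_zero_of_not_dvd (by norm_num)]; rfl
  · rw [padicValNat.self (by norm_num)]; rfl
  · rw [padicValNat.eq_zero_of_not_dvd (by norm_num)]; rfl
  · rw [padicValNat.eq_zero_of_not_dvd (by norm_num)]; rfl
  · rw [show (6 : ℕ) = 3 * 2 by norm_num, padicValNat.mul (by norm_num) (by norm_num),
      padicValNat.self (by norm_num), padicValNat.eq_zero_of_not_dvd (by norm_num)]; rfl

theorem val5 (i : ℕ) (h1 : 1 ≤ i) (h6 : i ≤ 6) : padicValRat 5 (i : ℚ) = e5 i := by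
  rw [padicValRat.of_nat]
  interval_cases i
  · simp [e5]
  · rw [padicValNat.eq_zero_of_not_dvd (by norm_num)]; rfl
  · rw [padicValNat.eq_zero_of_not_dvd (by norm_num)]; rfl
  · rw [padicValNat.eq_zero_of_not_dvd (by norm_num)]; rfl
  · rw [padicValNat.self (by norm_num)]; rfl
  · rw [padicValNat.eq_zero_of_not_dvd (by norm_num)]; rfl

theorem Khat_ne_zero {n : ℕ} {x : ℚ} (hx : x ∈ Khat n) : x ≠ 0 := by
  obtain ⟨a, ha, b, hb, rfl⟩ := hx
  have h1 : (a : ℚ) ≠ 0 := by exact_mod_cast ha.1.ne'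
  have h2 : (b : ℚ) ≠ 0 := by exact_mod_cast hb.1.ne'
  exact div_ne_zero h1 h2

theorem col_mul {x : ℚ} (hx : x ≠ 0) (i : ℕ) (h1 : 1 ≤ i) (h6 : i ≤ 6) :
    col ((i : ℚ) * x) = colE (e2 i + padicValRat 2 x) (e3 i + padicValRat 3 x)
      (e5 i + padicValRat 5 x) := by
  have hi : (i : ℚ) ≠ 0 := by
    have : i ≠ 0 := by omega
    exact_mod_cast this
  have : Fact (Nat.Prime 2) := ⟨by norm_num⟩
  have : Fact (Nat.Prime 3) := ⟨by norm_num⟩
  have : Fact (Nat.Prime 5) := ⟨by norm_num⟩
  rw [col_eq, padicValRat.mul hi hx, padicValRat.mul hi hx, padicValRat.mul hi hx,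
    val2 i h1 h6, val3 i h1 h6, val5 i h1 h6]

theorem pal_level (s s' r r' : ℤ) (hs : s % 2 ≠ s' % 2) : pal s r ≠ pal s' r' := by
  have h1 : s % 2 = 0 ∨ s % 2 = 1 := by omega
  have h2 : s' % 2 = 0 ∨ s' % 2 = 1 := by omega
  unfold pal
  rcases h1 with h1 | h1 <;> rcases h2 with h2 | h2
  · omega
  · have e2 : ¬ s' % 2 = 0 := by omega
    rw [if_pos h1, if_neg e2]
    split_ifs <;> norm_num
  · have e1 : ¬ s % 2 = 0 := by omega
    rw [if_neg e1, if_pos h2]
    split_ifs <;> norm_num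
  · omega

theorem pal_inj (s r r' : ℤ) (h : r ≠ r') (h0 : 0 ≤ r) (h3 : r < 3) (h0' : 0 ≤ r') (h3' : r' < 3) :
    pal s r ≠ pal s r' := by
  unfold pal
  interval_cases r <;> interval_cases r' <;> first | exact absurd rfl h | (split_ifs <;> norm_num at *)

theorem colE_ne (a b c : ℤ) (i j : ℕ) (h1 : 1 ≤ i) (hij : i < j) (h6 : j ≤ 6) :
    colE (e2 i + a) (e3 i + b) (e5 i + c) ≠ colE (e2 j + a) (e3 j + b) (e5 j + c) := by
  have key : e3 i + e5 i = e3 j + e5 j ∧ (e2 i - e5 i) % 3 ≠ (e2 j - e5 j) % 3 ∨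
      (e3 i + e5 i) % 2 ≠ (e3 j + e5 j) % 2 := by
    have hi6 : i ≤ 5 := by omega
    interval_cases i <;> interval_cases j <;> simp [e2, e3, e5]
  unfold colE
  rcases key with ⟨h, h'⟩ | h
  · rw [show e3 j + b + (e5 j + c) = e3 i + b + (e5 i + c) by linarith]
    exact pal_inj _ _ _ (by omega) (by omega) (by omega) (by omega) (by omega)
  · exact pal_level _ _ _ _ (by omega)

theorem col_satisfactory : IsSatisfactory 6 (Khat 6) col := by
  refine ⟨fun x _ => col_range x, fun i h1 h6 => ?_, fun x hx i j h1 hij h6 => ?_⟩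
  · rw [col_eq, val2 i h1 h6, val3 i h1 h6, val5 i h1 h6]
    interval_cases i <;> simp [e2, e3, e5, colE, pal]
  · have hx0 := Khat_ne_zero hx
    rw [col_mul hx0 i h1 (by omega), col_mul hx0 j (by omega) h6]
    exact colE_ne _ _ _ i j h1 hij h6

theorem mem_K {m : ℕ} (hm : m = 1 ∨ m = 3 ∨ m = 9) : m ∈ K 6 := by
  rcases hm with rfl | rfl | rfl
  · exact ⟨by norm_num, fun p hp h => by
      have := Nat.dvd_one.1 h
      omega⟩
  · exact ⟨by norm_num, fun p hp h => by
      have := Nat.le_of_dvd (by norm_num) h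
      omega⟩
  · refine ⟨by norm_num, fun p hp h => ?_⟩
    rw [show (9 : ℕ) = 3 ^ 2 by norm_num] at h
    have := Nat.le_of_dvd (by norm_num) (hp.dvd_of_dvd_pow h)
    omega

theorem mem_Khat {a b : ℕ} (ha : a = 1 ∨ a = 3 ∨ a = 9) (hb : b = 1 ∨ b = 3 ∨ b = 9) :
    (a : ℚ) / (b : ℚ) ∈ Khat 6 := ⟨a, mem_K ha, b, mem_K hb, rfl⟩

theorem col_one : col 1 = 1 := by
  have := col_satisfactory.2.1 1 le_rfl (by norm_num)
  simpa using this

theorem col_three : col 3 = 3 := by
  have := col_satisfactory.2.1 3 (by norm_num) (by norm_num)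
  simpa using this

theorem col_nine : col 9 = 2 := by
  have h := col_mul (x := 3) (by norm_num) 3 (by norm_num) (by norm_num)
  have h2 := val2 3 (by norm_num) (by norm_num)
  have h3 := val3 3 (by norm_num) (by norm_num)
  have h5 := val5 3 (by norm_num) (by norm_num)
  push_cast at h h2 h3 h5
  rw [h2, h3, h5] at h
  rw [show (9 : ℚ) = 3 * 3 by norm_num, h]
  simp [e2, e3, e5, colE, pal]

theorem col_third : col (1 / 3) = 3 := by
  have : Fact (Nat.Prime 2) := ⟨by norm_num⟩
  have : Fact (Nat.Prime 3) := ⟨by norm_num⟩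
  have : Fact (Nat.Prime 5) := ⟨by norm_num⟩
  have h2 := val2 3 (by norm_num) (by norm_num)
  have h3 := val3 3 (by norm_num) (by norm_num)
  have h5 := val5 3 (by norm_num) (by norm_num)
  push_cast at h2 h3 h5
  rw [col_eq, padicValRat.div (by norm_num) (by norm_num), padicValRat.div (by norm_num)
    (by norm_num), padicValRat.div (by norm_num) (by norm_num), h2, h3, h5]
  simp [e2, e3, e5, colE, pal]

/-- There are a `6`-satisfactory colouring `c` of `Khat 6`, a colour class `X` of `c` and an `i` in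
`{1, ..., 6}` such that the part `{y : y / i ∈ X}` is not a colour class of `c`. -/
theorem result :
    ∃ c : ℚ → ℕ, IsSatisfactory 6 (Khat 6) c ∧
      ∃ k : ℕ, 1 ≤ k ∧ k ≤ 6 ∧ ∃ i : ℕ, 1 ≤ i ∧ i ≤ 6 ∧
        ∀ l : ℕ, part 6 (colorClass 6 c k) i ≠ colorClass 6 c l := by
  refine ⟨col, col_satisfactory, 3, by norm_num, by norm_num, 3, by norm_num, by norm_num,
    fun l h => ?_⟩
  have h1 : (1 : ℚ) ∈ part 6 (colorClass 6 col 3) 3 := by
    refine ⟨by simpa using mem_Khat (a := 1) (b := 1) (by simp) (by simp), ?_, ?_⟩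
    · simpa using mem_Khat (a := 1) (b := 3) (by simp) (by simp)
    · simpa using col_third
  have h9 : (9 : ℚ) ∈ part 6 (colorClass 6 col 3) 3 := by
    refine ⟨by simpa using mem_Khat (a := 9) (b := 1) (by simp) (by simp), ?_, ?_⟩
    · have := mem_Khat (a := 9) (b := 3) (by simp) (by simp)
      simpa using this
    · have : (9 : ℚ) / ((3 : ℕ) : ℚ) = 3 := by norm_num
      rw [this]
      exact col_three
  rw [h] at h1 h9
  have e1 := h1.2
  have e9 := h9.2
  rw [col_one] at e1
  rw [col_nine] at e9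
  omega

end Pool.Agent.Results.MP_aaa104_nt.TilingNotRecovered
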